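import Pool.Agent.R3B.StmtsL

/-!
# Row LIM of squad R3B: the limit of the solutions of the shells
-/

set_option autoImplicit false

namespace Pool.Agent.R3B.H75

open Set Filter Topology MeasureTheory
open Pool.Agent.Helper39_Wave (phi phi_zero abs_phi' continuous_phi)
open Pool.Agent.Helper72_Shell (CharSol En psi fold bw fold_nonneg fold_le wt_shell exists_charSol)
open Pool.Agent.R3B

noncomputable section

/-- the parameters -/
def ep (n : ℕ) : ℝ := 1 / ((n : ℝ) + 1)

theorem ep_pos (n : ℕ) : 0 < ep n := by unfold ep; positivity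

theorem ep_le (n : ℕ) : ep n ≤ 1 := by
  unfold ep
  rw [div_le_one (by positivity)]
  have : (0 : ℝ) ≤ n := Nat.cast_nonneg n
  linarith

theorem ep_tendsto : Tendsto ep atTop (𝓝 0) := tendsto_one_div_add_atTop_nhds_zero_nat

/-- the product of the constant and the weight -/
theorem weight {a α ℓ e : ℝ} (hℓ : 0 < ℓ) (he : 0 < e) (x : ℝ) :
    a / 2 * e ^ (-α) * bw e α ℓ x = a / 2 * (e + fold ℓ x) ^ (-α) := by
  have hf := fold_nonneg hℓ x
  have hpos : 0 < e + fold ℓ x := by linarith
  unfold bw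
  rw [Real.div_rpow he.le hpos.le, Real.rpow_neg he.le, Real.rpow_neg hpos.le]
  have h1 : e ^ α ≠ 0 := (Real.rpow_pos_of_pos he α).ne'
  field_simp

/-- one weight against `0` -/
theorem one_weight {α f e : ℝ} (hα : 0 < α) (hf : 0 < f) (he : 0 < e) :
    f ^ (α + 1) * (e + f) ^ (-α) ≤ f ∧ f - (α + 1) * e ≤ f ^ (α + 1) * (e + f) ^ (-α) := by
  have hpos : 0 < e + f := by linarith
  have hx0 : 0 < f / (e + f) := div_pos hf hpos
  have hx1 : f / (e + f) ≤ 1 := by rw [div_le_one hpos]; linarith
  have h1 : f ^ (α + 1) * (e + f) ^ (-α) = f * (f / (e + f)) ^ α := by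
    rw [Real.div_rpow hf.le hpos.le, Real.rpow_neg hpos.le, Real.rpow_add_one hf.ne']
    have h2 : (e + f) ^ α ≠ 0 := (Real.rpow_pos_of_pos hpos α).ne'
    field_simp
  rw [h1]
  constructor
  · have h2 : (f / (e + f)) ^ α ≤ 1 := Real.rpow_le_one hx0.le hx1 hα.le
    nlinarith
  · have h3 := one_add_mul_self_le_rpow_one_add (s := f / (e + f) - 1) (by linarith)
      (p := α + 1) (by linarith)
    have h4 : 1 + (f / (e + f) - 1) = f / (e + f) := by ring
    rw [h4] at h3
    have h5 : (f / (e + f)) ^ (α + 1) ≤ (f / (e + f)) ^ α :=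
      Real.rpow_le_rpow_of_exponent_ge hx0 hx1 (by linarith)
    have h6 : f * (1 - f / (e + f)) ≤ e := by
      have h7 : f * (1 - f / (e + f)) = e * (f / (e + f)) := by
        field_simp
        ring
      rw [h7]
      nlinarith
    have h8 : f * (1 + (α + 1) * (f / (e + f) - 1)) ≤ f * (f / (e + f)) ^ α :=
      mul_le_mul_of_nonneg_left (h3.trans h5) hf.le
    nlinarith

/-- the difference of two weights -/
theorem two_weight {α f e e' : ℝ} (hα : 0 < α) (hf : 0 ≤ f) (he : 0 < e) (he' : 0 < e') :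
    |(e + f) ^ (-α) - (e' + f) ^ (-α)| * f ^ (α + 1) ≤ (α + 1) * (e + e') := by
  rcases hf.eq_or_lt with h0 | h0
  · rw [← h0, Real.zero_rpow (by linarith : α + 1 ≠ 0), mul_zero]
    positivity
  · obtain ⟨h1, h2⟩ := one_weight hα h0 he
    obtain ⟨h3, h4⟩ := one_weight hα h0 he'
    have hp : 0 < f ^ (α + 1) := Real.rpow_pos_of_pos h0 _
    have h5 : |(e + f) ^ (-α) - (e' + f) ^ (-α)| * f ^ (α + 1) =
        |f ^ (α + 1) * (e + f) ^ (-α) - f ^ (α + 1) * (e' + f) ^ (-α)| := by
      rw [← mul_sub, abs_mul, abs_of_pos hp, mul_comm]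
    rw [h5, abs_le]
    have h6 : 0 < (α + 1) * e := by positivity
    have h7 : 0 < (α + 1) * e' := by positivity
    constructor <;> nlinarith

/-- the bound of the damping -/
theorem phi_bound {α V L f : ℝ} (hα : 0 < α) (hL : 0 ≤ L) (hf : 0 ≤ f) (hV : |V| ≤ L * f) :
    |phi α V| ≤ L ^ (α + 1) * f ^ (α + 1) := by
  rw [abs_phi' hα, ← Real.mul_rpow hL hf]
  exact Real.rpow_le_rpow (abs_nonneg _) hV (by linarith)

/-- Row LIM -/
theorem lim (hCMP : CmpStmt) (hLIP : LipStmt) (hVBD : VbdStmt) : LimStmt := by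
  intro a α ℓ ha hα hℓ
  set L : ℝ := Real.pi / ℓ with hL
  have hL0 : 0 < L := div_pos Real.pi_pos hℓ
  -- the approximations
  set κ : ℕ → ℝ := fun n => a / 2 * ep n ^ (-α) with hκ
  set b0 : ℕ → ℝ := fun n => (ep n / (ep n + ℓ)) ^ α with hb0
  set b : ℕ → ℝ → ℝ := fun n => bw (ep n) α ℓ with hb
  have hκ0 : ∀ n, 0 < κ n := fun n => by
    have := Real.rpow_pos_of_pos (ep_pos n) (-α)
    simp only [hκ]
    positivity
  have hex : ∀ n, ∃ P : ℝ → ℝ → ℝ, CharSol (κ n) α ℓ (b0 n) (b n) P ∧
      (∀ y, P 0 y = Real.cos (Real.pi / ℓ * y)) ∧ ∀ t, 0 ≤ t → ∀ y, |P t y| ≤ 1 := by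
    intro n
    obtain ⟨P, D, h1, -, -, h4, h5⟩ := exists_charSol (hκ0 n) hα (wt_shell (ep_pos n) hα hℓ)
    refine ⟨P, h1, ?_, h5⟩
    intro y
    rw [h4 0 y]
    simp
  choose Pn hsol hini hone using hex
  have hc : ∀ n x, κ n * b n x = a / 2 * (ep n + fold ℓ x) ^ (-α) := fun n x =>
    weight hℓ (ep_pos n) x
  have hlip : ∀ n t h y, 0 ≤ t → 0 ≤ h → |Pn n (t + h) (y + h) - Pn n t y| ≤ L * h := fun n =>
    hLIP (κ n) α ℓ (b0 n) (b n) (Pn n) (hsol n) (hini n)
  have hvb : ∀ n t y, 0 ≤ t → |Pn n t y - Pn n t (2 * t - y)| ≤ 2 * L * fold ℓ (y - t) := fun n =>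
    hVBD (κ n) α ℓ (b0 n) (b n) (Pn n) L (hsol n) hL0.le (hlip n)
  have hf0 : ∀ x, 0 ≤ fold ℓ x := fold_nonneg hℓ
  have hUB : ∀ n, UB (κ n) α ℓ (b0 n) (b n) (Pn n) (a / 2 * (1 + ℓ) ^ (-α)) (a / 2) (2 * L) := by
    intro n
    have hen := ep_pos n
    refine ⟨hsol n, ?_, by positivity, by positivity, ?_, ?_, hvb n, ?_⟩
    · have := Real.rpow_pos_of_pos (by linarith : (0 : ℝ) < 1 + ℓ) (-α)
      positivity
    · have h1 : κ n * b0 n = a / 2 * (ep n + ℓ) ^ (-α) := by
        simp only [hκ, hb0]
        rw [Real.div_rpow hen.le (by linarith), Real.rpow_neg hen.le,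
          Real.rpow_neg (by linarith : (0 : ℝ) ≤ ep n + ℓ)]
        have h2 : ep n ^ α ≠ 0 := (Real.rpow_pos_of_pos hen α).ne'
        field_simp
      rw [h1]
      apply mul_le_mul_of_nonneg_left _ (by positivity)
      exact Real.rpow_le_rpow_of_nonpos (by linarith) (by linarith [ep_le n]) (by linarith)
    · intro x
      rw [hc n x]
      have hpos : 0 < ep n + fold ℓ x := by linarith [hf0 x]
      have h1 : (ep n + fold ℓ x) ^ (-α) * fold ℓ x ^ α ≤ 1 := by
        rw [Real.rpow_neg hpos.le, inv_mul_le_iff₀ (Real.rpow_pos_of_pos hpos α), mul_one]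
        exact Real.rpow_le_rpow (hf0 x) (by linarith) hα.le
      have h2 : a / 2 * (ep n + fold ℓ x) ^ (-α) * fold ℓ x ^ α =
          a / 2 * ((ep n + fold ℓ x) ^ (-α) * fold ℓ x ^ α) := by ring
      rw [h2]
      have := mul_le_mul_of_nonneg_left h1 (by positivity : (0 : ℝ) ≤ a / 2)
      linarith
    · intro y
      exact hone n 0 le_rfl y
  -- the comparison
  set C : ℝ := a / 2 * (2 * L) ^ (α + 1) * (α + 1) with hC
  have hC0 : 0 ≤ C := by
    have := Real.rpow_nonneg (by positivity : (0 : ℝ) ≤ 2 * L) (α + 1)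
    positivity
  have hcont_c : ∀ n, Continuous fun x => κ n * b n x := fun n =>
    continuous_const.mul (hsol n).bcont
  have hode : ∀ n t1 t2 y, 0 ≤ t1 → t1 ≤ t2 → Pn n t2 y - Pn n t1 y =
      -∫ s in t1..t2, (κ n * b n (y - s)) * phi α (Pn n s y - Pn n s (2 * s - y)) := by
    intro n t1 t2 y h1 h2
    rw [(hsol n).ode t1 t2 y h1 h2, neg_mul, ← intervalIntegral.integral_const_mul]
    congr 1
    refine intervalIntegral.integral_congr fun s _ => ?_
    ring
  have hcmp : ∀ n m t y, 0 ≤ t → |Pn n t y - Pn m t y| ≤ C * (ep n + ep m) * t := by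
    intro n m t y ht
    have h := hCMP α ℓ (C * (ep n + ep m)) 0 (fun x => κ n * b n x) (fun x => κ m * b m x)
      (Pn n) (Pn m) hα hℓ (mul_nonneg hC0 (by linarith [ep_pos n, ep_pos m]))
      (hcont_c n) (hcont_c m) (fun x => mul_nonneg (hκ0 n).le ((hsol n).bnn x))
      (hsol n).cont (hsol m).cont (hsol n).per (hsol m).per (hode n) (hode m)
      (by
        intro y
        rw [hini n y, hini m y, sub_self, abs_zero])
      (by
        intro t y ht
        show |κ n * b n (y - t) - κ m * b m (y - t)| *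
          |phi α (Pn m t y - Pn m t (2 * t - y))| ≤ C * (ep n + ep m)
        rw [hc n, hc m, ← mul_sub, abs_mul, abs_of_pos (by positivity : (0 : ℝ) < a / 2)]
        have h1 := phi_bound hα (by positivity : (0 : ℝ) ≤ 2 * L) (hf0 (y - t)) (hvb m t y ht)
        have h2 := two_weight hα (hf0 (y - t)) (ep_pos n) (ep_pos m)
        have hp : 0 ≤ (2 * L) ^ (α + 1) := Real.rpow_nonneg (by positivity) _
        calc a / 2 * |(ep n + fold ℓ (y - t)) ^ (-α) - (ep m + fold ℓ (y - t)) ^ (-α)| *
              |phi α (Pn m t y - Pn m t (2 * t - y))|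
            ≤ a / 2 * |(ep n + fold ℓ (y - t)) ^ (-α) - (ep m + fold ℓ (y - t)) ^ (-α)| *
              ((2 * L) ^ (α + 1) * fold ℓ (y - t) ^ (α + 1)) :=
              mul_le_mul_of_nonneg_left h1 (by positivity)
          _ = a / 2 * (2 * L) ^ (α + 1) *
              (|(ep n + fold ℓ (y - t)) ^ (-α) - (ep m + fold ℓ (y - t)) ^ (-α)| *
                fold ℓ (y - t) ^ (α + 1)) := by ring
          _ ≤ a / 2 * (2 * L) ^ (α + 1) * ((α + 1) * (ep n + ep m)) :=
              mul_le_mul_of_nonneg_left h2 (by positivity)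
          _ = C * (ep n + ep m) := by rw [hC]; ring)
      t y ht
    rw [zero_add] at h
    exact h
  -- the limit
  have hlim : ∀ t y : ℝ, ∃ p : ℝ, Tendsto (fun n => Pn n (max t 0) y) atTop (𝓝 p) := by
    intro t y
    apply cauchySeq_tendsto_of_complete
    rw [Metric.cauchySeq_iff']
    intro ε hε
    have h0 : 0 ≤ max t 0 := le_max_right _ _
    have h1 : Tendsto (fun n => C * (ep n + ep n) * max t 0) atTop (𝓝 0) := by
      have h2 := ((ep_tendsto.add ep_tendsto).const_mul C).mul_const (max t 0)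
      simpa using h2
    obtain ⟨N, hN⟩ := (h1.eventually (gt_mem_nhds hε)).exists
    refine ⟨N, fun n hn => ?_⟩
    rw [Real.dist_eq]
    refine lt_of_le_of_lt (hcmp n N (max t 0) y h0) (lt_of_le_of_lt ?_ hN)
    have h3 : ep n ≤ ep N := by
      unfold ep
      apply one_div_le_one_div_of_le (by positivity)
      have : (N : ℝ) ≤ n := by exact_mod_cast hn
      linarith
    apply mul_le_mul_of_nonneg_right _ h0
    apply mul_le_mul_of_nonneg_left _ hC0
    linarith
  choose P hP using hlim
  have hPt : ∀ t y, 0 ≤ t → Tendsto (fun n => Pn n t y) atTop (𝓝 (P t y)) := by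
    intro t y ht
    have h := hP t y
    rwa [max_eq_left ht] at h
  have hdist : ∀ n t y, |Pn n (max t 0) y - P t y| ≤ C * ep n * max t 0 := by
    intro n t y
    have h0 : 0 ≤ max t 0 := le_max_right _ _
    have h1 : Tendsto (fun m => |Pn n (max t 0) y - Pn m (max t 0) y|) atTop
        (𝓝 |Pn n (max t 0) y - P t y|) := (tendsto_const_nhds.sub (hP t y)).abs
    have h2 : Tendsto (fun m => C * (ep n + ep m) * max t 0) atTop (𝓝 (C * ep n * max t 0)) := by
      have h3 := ((ep_tendsto.const_add (ep n)).const_mul C).mul_const (max t 0)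
      simpa using h3
    exact le_of_tendsto_of_tendsto' h1 h2 fun m => hcmp n m (max t 0) y h0
  have hcontn : ∀ n, Continuous fun z : ℝ × ℝ => Pn n (max z.1 0) z.2 := fun n =>
    (hsol n).cont.comp (by fun_prop : Continuous fun z : ℝ × ℝ => (max z.1 0, z.2))
  have hcontP : Continuous fun z : ℝ × ℝ => P z.1 z.2 := by
    have hu : TendstoLocallyUniformly (fun n (z : ℝ × ℝ) => Pn n (max z.1 0) z.2)
        (fun z => P z.1 z.2) atTop := by
      rw [Metric.tendstoLocallyUniformly_iff]
      intro ε hε x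
      refine ⟨{z : ℝ × ℝ | max z.1 0 < max x.1 0 + 1}, ?_, ?_⟩
      · have ho : IsOpen {z : ℝ × ℝ | max z.1 0 < max x.1 0 + 1} :=
          isOpen_lt (by fun_prop) continuous_const
        exact ho.mem_nhds (by show max x.1 0 < max x.1 0 + 1; linarith)
      · have h1 : Tendsto (fun n => C * ep n * (max x.1 0 + 1)) atTop (𝓝 0) := by
          have h2 := (ep_tendsto.const_mul C).mul_const (max x.1 0 + 1)
          simpa using h2
        filter_upwards [h1.eventually (gt_mem_nhds hε)] with n hn z hz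
        have hz' : max z.1 0 < max x.1 0 + 1 := hz
        rw [dist_comm, Real.dist_eq]
        refine lt_of_le_of_lt (hdist n z.1 z.2) (lt_of_le_of_lt ?_ hn)
        exact mul_le_mul_of_nonneg_left hz'.le (mul_nonneg hC0 (ep_pos n).le)
    exact hu.continuous (Frequently.of_forall hcontn)
  have hone' : ∀ n t y, |Pn n (max t 0) y| ≤ 1 := fun n t y => hone n _ (le_max_right _ _) y
  have hVn : ∀ (n : ℕ) (y : ℝ), Continuous fun s : ℝ => (κ n * b n (y - s)) *
      phi α (Pn n s y - Pn n s (2 * s - y)) := by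
    intro n y
    apply Continuous.mul ((hcont_c n).comp (by fun_prop))
    apply (continuous_phi hα).comp
    apply Continuous.sub
    · exact (hsol n).contP continuous_id continuous_const
    · exact (hsol n).contP continuous_id (by fun_prop)
  have hvbP : ∀ t y, 0 ≤ t → |P t y - P t (2 * t - y)| ≤ 2 * L * fold ℓ (y - t) := by
    intro t y ht
    exact le_of_tendsto' ((hPt t y ht).sub (hPt t (2 * t - y) ht)).abs fun n => hvb n t y ht
  refine ⟨P, κ, b0, b, Pn, ?_, hUB, hini, hPt⟩
  refine ⟨hcontP, ?_, ?_, ?_, ?_, hvbP, ?_, ?_⟩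
  · intro t y ht
    have h1 := hP t y
    have h2 := hP 0 y
    rw [max_eq_right ht] at h1
    rw [max_self] at h2
    exact tendsto_nhds_unique h1 h2
  · intro t y
    have h1 := hP t (y + 2 * ℓ)
    have h2 := hP t y
    simp only [(hsol _).per] at h1
    exact tendsto_nhds_unique h1 h2
  · intro y
    have h1 := hPt 0 y le_rfl
    simp only [hini] at h1
    exact tendsto_nhds_unique h1 tendsto_const_nhds
  · intro t
    have h1 : Tendsto (fun n => ∫ y in (0 : ℝ)..(2 * ℓ), Pn n (max t 0) y) atTop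
        (𝓝 (∫ y in (0 : ℝ)..(2 * ℓ), P t y)) := by
      refine intervalIntegral.tendsto_integral_filter_of_dominated_convergence (fun _ => (1 : ℝ))
        ?_ ?_ ?_ ?_
      · refine Eventually.of_forall fun n => ?_
        exact ((hsol n).contP continuous_const continuous_id).aestronglyMeasurable
      · refine Eventually.of_forall fun n => Eventually.of_forall fun y _ => ?_
        rw [Real.norm_eq_abs]
        exact hone' n t y
      · exact continuous_const.intervalIntegrable _ _
      · exact Eventually.of_forall fun y _ => hP t y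
    have h2 : (fun n => ∫ y in (0 : ℝ)..(2 * ℓ), Pn n (max t 0) y) = fun _ => 0 := by
      funext n
      exact (hsol n).mean _ (le_max_right _ _)
    rw [h2] at h1
    exact tendsto_nhds_unique h1 tendsto_const_nhds
  · intro t h y ht hh
    exact le_of_tendsto' ((hPt (t + h) (y + h) (by linarith)).sub (hPt t y ht)).abs
      fun n => hlip n t h y ht hh
  · intro t1 t2 y h1 h2
    have hl : Tendsto (fun n => Pn n t2 y - Pn n t1 y) atTop (𝓝 (P t2 y - P t1 y)) :=
      (hPt t2 y (h1.trans h2)).sub (hPt t1 y h1)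
    have hr : Tendsto (fun n => ∫ s in t1..t2, (κ n * b n (y - s)) *
        phi α (Pn n s y - Pn n s (2 * s - y))) atTop
        (𝓝 (∫ s in t1..t2, a / 2 * (bl α ℓ (y - s) * phi α (P s y - P s (2 * s - y))))) := by
      refine intervalIntegral.tendsto_integral_filter_of_dominated_convergence
        (fun _ => a / 2 * (2 * L) ^ (α + 1) * ℓ) ?_ ?_ ?_ ?_
      · exact Eventually.of_forall fun n => (hVn n y).aestronglyMeasurable
      · refine Eventually.of_forall fun n => Eventually.of_forall fun s hs => ?_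
        rw [uIoc_of_le h2] at hs
        have hs0 : 0 ≤ s := h1.trans hs.1.le
        rw [Real.norm_eq_abs, abs_mul, hc n]
        have hpos : 0 < ep n + fold ℓ (y - s) := by linarith [hf0 (y - s), ep_pos n]
        have hp1 : 0 < (ep n + fold ℓ (y - s)) ^ (-α) := Real.rpow_pos_of_pos hpos _
        rw [abs_of_pos (by positivity : 0 < a / 2 * (ep n + fold ℓ (y - s)) ^ (-α))]
        have h3 := phi_bound hα (by positivity : (0 : ℝ) ≤ 2 * L) (hf0 (y - s)) (hvb n s y hs0)
        have hp2 : 0 ≤ (2 * L) ^ (α + 1) := Real.rpow_nonneg (by positivity) _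
        have h4 : fold ℓ (y - s) ^ (α + 1) * (ep n + fold ℓ (y - s)) ^ (-α) ≤ ℓ := by
          rcases (hf0 (y - s)).eq_or_lt with h0 | h0
          · rw [← h0, Real.zero_rpow (by linarith : α + 1 ≠ 0), zero_mul]
            exact hℓ.le
          · exact (one_weight hα h0 (ep_pos n)).1.trans (fold_le hℓ _)
        calc a / 2 * (ep n + fold ℓ (y - s)) ^ (-α) * |phi α (Pn n s y - Pn n s (2 * s - y))|
            ≤ a / 2 * (ep n + fold ℓ (y - s)) ^ (-α) *
              ((2 * L) ^ (α + 1) * fold ℓ (y - s) ^ (α + 1)) :=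
              mul_le_mul_of_nonneg_left h3 (by positivity)
          _ = a / 2 * (2 * L) ^ (α + 1) *
              (fold ℓ (y - s) ^ (α + 1) * (ep n + fold ℓ (y - s)) ^ (-α)) := by ring
          _ ≤ a / 2 * (2 * L) ^ (α + 1) * ℓ := mul_le_mul_of_nonneg_left h4 (by positivity)
      · exact continuous_const.intervalIntegrable _ _
      · refine Eventually.of_forall fun s hs => ?_
        rw [uIoc_of_le h2] at hs
        have hs0 : 0 ≤ s := h1.trans hs.1.le
        rcases (hf0 (y - s)).eq_or_lt with h0 | h0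
        · have hz : ∀ n, Pn n s y - Pn n s (2 * s - y) = 0 := by
            intro n
            have h3 := hvb n s y hs0
            rw [← h0, mul_zero] at h3
            exact abs_nonpos_iff.mp h3
          have hz' : P s y - P s (2 * s - y) = 0 := by
            have h3 := hvbP s y hs0
            rw [← h0, mul_zero] at h3
            exact abs_nonpos_iff.mp h3
          simp only [hz, hz', phi_zero, mul_zero]
          exact tendsto_const_nhds
        · have h3 : Tendsto (fun n => κ n * b n (y - s)) atTop (𝓝 (a / 2 * bl α ℓ (y - s))) := by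
            simp only [hc]
            have h4 : Tendsto (fun n => ep n + fold ℓ (y - s)) atTop (𝓝 (fold ℓ (y - s))) := by
              have h5 := ep_tendsto.add_const (fold ℓ (y - s))
              simpa using h5
            have h6 := h4.rpow_const (p := -α) (Or.inl h0.ne')
            exact h6.const_mul (a / 2)
          have h7 : Tendsto (fun n => phi α (Pn n s y - Pn n s (2 * s - y))) atTop
              (𝓝 (phi α (P s y - P s (2 * s - y)))) :=
            ((continuous_phi hα).tendsto _).comp ((hPt s y hs0).sub (hPt s (2 * s - y) hs0))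
          have h8 := h3.mul h7
          rw [mul_assoc] at h8
          exact h8
    have h3 : (fun n => Pn n t2 y - Pn n t1 y) = fun n => -∫ s in t1..t2,
        (κ n * b n (y - s)) * phi α (Pn n s y - Pn n s (2 * s - y)) := by
      funext n
      exact hode n t1 t2 y h1 h2
    rw [h3] at hl
    have h4 := tendsto_nhds_unique hl hr.neg
    rw [h4, intervalIntegral.integral_const_mul, neg_mul]

end

end Pool.Agent.R3B.H75
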